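import Mathlib

set_option autoImplicit false

namespace Pool.Agent.Lib.MP_811154_nt

/-- The modular numerical semigroup `S(a,b,1) = {x | a x mod b ≤ x}`. -/
def modS (a b : ℕ) : Set ℕ := {x | a * x % b ≤ x}

/-- `G` is a minimal generating set of the submonoid of `ℕ` with underlying set `S`:
it generates `S` and no proper subset of it does. -/
def IsMinGen (S G : Set ℕ) : Prop :=
  (AddSubmonoid.closure G : Set ℕ) = S ∧ ∀ G' : Set ℕ, G' ⊂ G → (AddSubmonoid.closure G' : Set ℕ) ≠ S

/-- `F` is the Frobenius number of `S`: the largest integer that is not in `S`. -/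
def IsFrob (S : Set ℕ) (F : ℤ) : Prop := IsGreatest {z : ℤ | ∀ x ∈ S, (x : ℤ) ≠ z} F

end Pool.Agent.Lib.MP_811154_nt
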