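import Pool.Agent.Lib.MP_811154_nt.Defs

set_option autoImplicit false

namespace Pool.Agent.Lib.MP_811154_nt

/-- The interior ideal. -/
def Iset (a b : ℕ) : Set ℕ := {x | ∃ k, a * x < k * b + x ∧ k * b < a * x}

/-- The irreducible elements. -/
def Irr (a b : ℕ) : Set ℕ :=
  {s | s ∈ modS a b ∧ s ≠ 0 ∧ ∀ x ∈ modS a b, ∀ y ∈ modS a b, x + y = s → x = 0 ∨ y = 0}

lemma mem_iff (a b x : ℕ) (hb : 0 < b) : x ∈ modS a b ↔ ∃ k, a * x ≤ k * b + x ∧ k * b ≤ a * x := by
  constructor
  · intro h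
    refine ⟨a * x / b, ?_, ?_⟩
    · have h1 := Nat.div_add_mod (a * x) b
      have h2 : a * x % b ≤ x := h
      rw [mul_comm (a * x / b) b]; omega
    · exact Nat.div_mul_le_self _ _
  · rintro ⟨k, h1, h2⟩
    have h3 : k ≤ a * x / b := by rw [Nat.le_div_iff_mul_le hb]; exact h2
    have h4 : k * b ≤ (a * x / b) * b := Nat.mul_le_mul_right b h3
    have h5 := Nat.div_add_mod (a * x) b
    rw [mul_comm b] at h5
    change a * x % b ≤ x
    omega

lemma zero_mem (a b : ℕ) : 0 ∈ modS a b := by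
  change a * 0 % b ≤ 0; simp

lemma add_mem (a b : ℕ) (hb : 0 < b) {x y : ℕ} (hx : x ∈ modS a b) (hy : y ∈ modS a b) :
    x + y ∈ modS a b := by
  rw [mem_iff a b _ hb] at *
  obtain ⟨k, h1, h2⟩ := hx
  obtain ⟨l, h3, h4⟩ := hy
  refine ⟨k + l, ?_, ?_⟩
  · rw [mul_add, add_mul]; omega
  · rw [mul_add, add_mul]; omega

lemma big_mem (a b : ℕ) (hb : 0 < b) {x : ℕ} (hx : b ≤ x) : x ∈ modS a b := by
  have : a * x % b < b := Nat.mod_lt _ hb
  change a * x % b ≤ x
  omega

lemma ideal_add (a b : ℕ) (hb : 0 < b) {x y : ℕ} (hx : x ∈ Iset a b) (hy : y ∈ modS a b) :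
    x + y ∈ Iset a b := by
  rw [mem_iff a b _ hb] at hy
  obtain ⟨k, h1, h2⟩ := hx
  obtain ⟨l, h3, h4⟩ := hy
  refine ⟨k + l, ?_, ?_⟩
  · rw [mul_add, add_mul]; omega
  · rw [mul_add, add_mul]; omega

lemma ideal_sub (a b : ℕ) (hb : 0 < b) {x : ℕ} (hx : x ∈ Iset a b) : x ∈ modS a b := by
  rw [mem_iff a b _ hb]
  obtain ⟨k, h1, h2⟩ := hx
  exact ⟨k, h1.le, h2.le⟩

/-- duality between gaps and the interior ideal -/
lemma dual (a b x : ℕ) (ha : 0 < a) (hb : 0 < b) (hx : x < b) :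
    x ∉ modS a b ↔ b - x ∈ Iset a b := by
  obtain ⟨y, hy⟩ : ∃ y, y = b - x := ⟨_, rfl⟩
  have hxy : x + y = b := by omega
  have hab : a * x + a * y = a * b := by rw [← mul_add, hxy]
  rw [← hy]
  constructor
  · intro h
    have h1 := Nat.div_add_mod (a * x) b
    have h2 : x < a * x % b := by
      by_contra hc
      exact h (by change a * x % b ≤ x; omega)
    have h3 := Nat.mod_lt (a * x) hb
    set k := a * x / b
    have hk : k < a := by
      have h4 : b * k < b * a := by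
        have h5 : a * x ≤ a * b := Nat.mul_le_mul_left a hx.le
        rw [mul_comm b a]
        have h6 : 0 < y := by omega
        have h7 : 0 < a * y := Nat.mul_pos ha h6
        omega
      exact Nat.lt_of_mul_lt_mul_left h4
    obtain ⟨j, hj⟩ : ∃ j, a = k + 1 + j := ⟨a - (k+1), by omega⟩
    have e : a * b = b * k + b + j * b := by rw [hj]; ring
    refine ⟨j, ?_, ?_⟩ <;> omega
  · rintro ⟨j, h1, h2⟩ hmem
    rw [mem_iff a b _ hb] at hmem
    obtain ⟨k, h3, h4⟩ := hmem
    -- k*b + j*b lies strictly between (a-1) b and a b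
    have h5 : (k + j) * b < a * b := by rw [add_mul]; omega
    have h6 : a * b < (k + j) * b + b := by rw [add_mul]; omega
    have h7 : k + j < a := Nat.lt_of_mul_lt_mul_right h5
    have h8 : a * b < (k + j + 1) * b := by rw [add_mul (k+j) 1 b, one_mul]; exact h6
    have h9 : a < k + j + 1 := Nat.lt_of_mul_lt_mul_right h8
    omega

lemma b_not_ideal (a b : ℕ) : b ∉ Iset a b := by
  rintro ⟨k, h1, h2⟩
  have h3 : k < a := Nat.lt_of_mul_lt_mul_right h2
  have h4 : a * b < (k + 1) * b := by rw [add_mul, one_mul]; exact h1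
  have h5 : a < k + 1 := Nat.lt_of_mul_lt_mul_right h4
  omega

lemma irr_lt (a b : ℕ) (hb : 0 < b) {s : ℕ} (hs : s ∈ Irr a b) : s < 2 * b := by
  by_contra hc
  obtain ⟨h1, h2, h3⟩ := hs
  rcases h3 b (big_mem a b hb le_rfl) (s - b) (big_mem a b hb (by omega)) (by omega) with h | h
  · omega
  · omega

lemma irr_finite (a b : ℕ) (hb : 0 < b) : (Irr a b).Finite :=
  (Set.finite_lt_nat (2 * b)).subset (fun _ hs => irr_lt a b hb hs)

/-- `S` as a submonoid -/
def modM (a b : ℕ) (hb : 0 < b) : AddSubmonoid ℕ where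
  carrier := modS a b
  add_mem' := fun hx hy => add_mem a b hb hx hy
  zero_mem' := zero_mem a b

lemma closure_irr (a b : ℕ) (hb : 0 < b) : (AddSubmonoid.closure (Irr a b) : Set ℕ) = modS a b := by
  apply Set.Subset.antisymm
  · have : AddSubmonoid.closure (Irr a b) ≤ modM a b hb :=
      (AddSubmonoid.closure_le).mpr (fun s hs => hs.1)
    exact this
  · intro s
    induction s using Nat.strong_induction_on with
    | _ s ih =>
      intro hs
      by_cases h0 : s = 0
      · subst h0; exact (AddSubmonoid.closure (Irr a b)).zero_mem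
      · by_cases hirr : s ∈ Irr a b
        · exact AddSubmonoid.subset_closure hirr
        · have : ¬ ∀ x ∈ modS a b, ∀ y ∈ modS a b, x + y = s → x = 0 ∨ y = 0 :=
            fun h => hirr ⟨hs, h0, h⟩
          push Not at this
          obtain ⟨x, hx, y, hy, hxy, hx0, hy0⟩ := this
          have h1 := ih x (by omega) hx
          have h2 := ih y (by omega) hy
          rw [← hxy]
          exact (AddSubmonoid.closure (Irr a b)).add_mem h1 h2

lemma irr_subset_gen (a b : ℕ) (G : Set ℕ)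
    (hG : (AddSubmonoid.closure G : Set ℕ) = modS a b) : Irr a b ⊆ G := by
  intro s hs
  by_contra hsG
  -- closure of G avoids s
  have hGS : G ⊆ modS a b := by
    rw [← hG]; exact AddSubmonoid.subset_closure
  have key : ∀ x ∈ AddSubmonoid.closure G, x ≠ s := by
    intro x hx
    induction hx using AddSubmonoid.closure_induction with
    | mem x hx => intro h; exact hsG (h ▸ hx)
    | zero => exact fun h => hs.2.1 h.symm
    | add x y hx hy ihx ihy =>
      intro h
      have hxS : x ∈ modS a b := by rw [← hG]; exact hx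
      have hyS : y ∈ modS a b := by rw [← hG]; exact hy
      rcases hs.2.2 x hxS y hyS h with h0 | h0
      · apply ihy; rw [h0, zero_add] at h; exact h
      · apply ihx; rw [h0, add_zero] at h; exact h
  have : s ∈ (AddSubmonoid.closure G : Set ℕ) := by rw [hG]; exact hs.1
  exact key s this rfl

lemma isMinGen_iff (a b : ℕ) (hb : 0 < b) (G : Set ℕ) : IsMinGen (modS a b) G ↔ G = Irr a b := by
  constructor
  · rintro ⟨h1, h2⟩
    have h3 := irr_subset_gen a b G h1
    by_contra hne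
    exact h2 (Irr a b) (lt_of_le_of_ne h3 (Ne.symm hne)) (closure_irr a b hb)
  · rintro rfl
    refine ⟨closure_irr a b hb, fun G' hG' h => ?_⟩
    exact hG'.2 (irr_subset_gen a b G' h)

/-- minimal generators of the interior ideal below `b` -/
def Qset (a b : ℕ) : Set ℕ :=
  {q | q ∈ Iset a b ∧ q < b ∧ ∀ i ∈ Iset a b, ∀ s ∈ modS a b, i + s = q → s = 0}

lemma exists_q (a b : ℕ) (hb : 0 < b) : ∀ x ∈ Iset a b, x < b →
    ∃ q ∈ Qset a b, ∃ s ∈ modS a b, q + s = x := by
  intro x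
  induction x using Nat.strong_induction_on with
  | _ x ih =>
    intro hx hxb
    by_cases hq : x ∈ Qset a b
    · exact ⟨x, hq, 0, zero_mem a b, rfl⟩
    · have : ¬ ∀ i ∈ Iset a b, ∀ s ∈ modS a b, i + s = x → s = 0 := fun h => hq ⟨hx, hxb, h⟩
      push Not at this
      obtain ⟨i, hi, s, hs, his, hs0⟩ := this
      obtain ⟨q, hq, t, ht, hqt⟩ := ih i (by omega) hi (by omega)
      exact ⟨q, hq, t + s, add_mem a b hb ht hs, by omega⟩

/-- elements of `S` below `b` outside the ideal lie on a ray -/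
lemma boundary (a b : ℕ) (hb : 0 < b) {s : ℕ} (hs : s ∈ modS a b) (hsI : s ∉ Iset a b) :
    b ∣ a * s ∨ ∃ k, a * s = k * b + s := by
  rw [mem_iff a b _ hb] at hs
  obtain ⟨k, h1, h2⟩ := hs
  by_cases h3 : k * b = a * s
  · left; exact ⟨k, by rw [← h3, mul_comm]⟩
  · right
    by_cases h4 : a * s = k * b + s
    · exact ⟨k, h4⟩
    · exact absurd ⟨k, by omega, by omega⟩ hsI

lemma ideal_not_upper (a b : ℕ) {q : ℕ} (hq : q ∈ Iset a b) (hqb : q < b) : ¬ b ∣ a * q := by
  rintro ⟨j, hj⟩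
  obtain ⟨k, h1, h2⟩ := hq
  rw [hj, mul_comm b j] at h1 h2
  have h3 : k < j := Nat.lt_of_mul_lt_mul_right h2
  have h4 : (k + 1) * b ≤ j * b := Nat.mul_le_mul_right b h3
  rw [add_mul, one_mul] at h4
  omega

lemma ideal_not_lower (a b : ℕ) {q : ℕ} (hq : q ∈ Iset a b) (hqb : q < b) :
    ¬ ∃ j, a * q = j * b + q := by
  rintro ⟨j, hj⟩
  obtain ⟨k, h1, h2⟩ := hq
  rw [hj] at h1 h2
  have h3 : j * b < k * b := by omega
  have h4 : j < k := Nat.lt_of_mul_lt_mul_right h3
  have h5 : (j + 1) * b ≤ k * b := Nat.mul_le_mul_right b h4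
  rw [add_mul, one_mul] at h5
  omega

lemma exists_irr_not_ideal (a b : ℕ) (hb : 0 < b) : ∃ e ∈ Irr a b, e ∉ Iset a b := by
  classical
  have hex : ∃ s, s ∈ modS a b ∧ s ≠ 0 ∧ s ∉ Iset a b :=
    ⟨b, big_mem a b hb le_rfl, by omega, b_not_ideal a b⟩
  obtain ⟨h1, h2, h3⟩ := Nat.find_spec hex
  refine ⟨Nat.find hex, ⟨h1, h2, ?_⟩, h3⟩
  intro x hx y hy hxy
  by_contra hc
  push Not at hc
  have h4 : x ∉ Iset a b := fun h => h3 (by rw [← hxy]; exact ideal_add a b hb h hy)
  exact Nat.find_min hex (m := x) (by omega) ⟨hx, hc.1, h4⟩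

lemma rays (a b : ℕ) (hb : 0 < b) {q₀ : ℕ} (hq : q₀ ∈ Qset a b) (hq' : q₀ ∉ Irr a b) :
    ∃ u v, u ∈ Irr a b ∧ v ∈ Irr a b ∧ u ∉ Iset a b ∧ v ∉ Iset a b ∧ u ≠ v ∧
      ∀ q ∈ Qset a b, q ∉ Irr a b → q = u + v := by
  classical
  -- every such q is a sum of an upper and a lower element
  have split : ∀ q ∈ Qset a b, q ∉ Irr a b → ∃ u' v', u' ≠ 0 ∧ v' ≠ 0 ∧ u' + v' = q ∧
      b ∣ a * u' ∧ ∃ k, a * v' = k * b + v' := by
    intro q hq hqn
    obtain ⟨hqI, hqb, hqm⟩ := hq
    have h0 : q ≠ 0 := by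
      rintro rfl
      obtain ⟨k, h1, h2⟩ := hqI
      simp at h2
    have : ¬ ∀ x ∈ modS a b, ∀ y ∈ modS a b, x + y = q → x = 0 ∨ y = 0 :=
      fun h => hqn ⟨ideal_sub a b hb hqI, h0, h⟩
    push Not at this
    obtain ⟨x, hx, y, hy, hxy, hx0, hy0⟩ := this
    have hxI : x ∉ Iset a b := fun h => hy0 (hqm x h y hy hxy)
    have hyI : y ∉ Iset a b := fun h => hx0 (hqm y h x hx (by omega))
    rcases boundary a b hb hx hxI with h1 | h1
    · rcases boundary a b hb hy hyI with h2 | h2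
      · exfalso
        apply ideal_not_upper a b hqI hqb
        rw [← hxy, mul_add]; exact dvd_add h1 h2
      · exact ⟨x, y, hx0, hy0, hxy, h1, h2⟩
    · rcases boundary a b hb hy hyI with h2 | h2
      · exact ⟨y, x, hy0, hx0, by omega, h2, h1⟩
      · exfalso
        apply ideal_not_lower a b hqI hqb
        obtain ⟨k, hk⟩ := h1
        obtain ⟨l, hl⟩ := h2
        refine ⟨k + l, ?_⟩
        rw [← hxy, mul_add, add_mul]; omega
  obtain ⟨u0, v0, hu0, hv0, huv0, hbu0, hbv0⟩ := split q₀ hq hq'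
  have hexU : ∃ x, x ≠ 0 ∧ b ∣ a * x := ⟨u0, hu0, hbu0⟩
  have hexV : ∃ x, x ≠ 0 ∧ ∃ k, a * x = k * b + x := ⟨v0, hv0, hbv0⟩
  obtain ⟨u, hu⟩ : ∃ u, u = Nat.find hexU := ⟨_, rfl⟩
  obtain ⟨v, hv⟩ : ∃ v, v = Nat.find hexV := ⟨_, rfl⟩
  obtain ⟨hu1, hu2⟩ := Nat.find_spec hexU
  obtain ⟨hv1, hv2⟩ := Nat.find_spec hexV
  rw [← hu] at hu1 hu2
  rw [← hv] at hv1 hv2
  have hub : u < b := by
    have h1 : u ≤ u0 := by rw [hu]; exact Nat.find_min' hexU ⟨hu0, hbu0⟩
    have h2 := hq.2.1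
    omega
  have hvb : v < b := by
    have h1 : v ≤ v0 := by rw [hv]; exact Nat.find_min' hexV ⟨hv0, hbv0⟩
    have h2 := hq.2.1
    omega
  obtain ⟨j, hj⟩ := hu2
  obtain ⟨l, hl⟩ := hv2
  have huS : u ∈ modS a b := by
    rw [mem_iff a b _ hb]; exact ⟨j, by rw [hj, mul_comm]; omega, by rw [hj, mul_comm]⟩
  have hvS : v ∈ modS a b := by
    rw [mem_iff a b _ hb]; exact ⟨l, by omega, by omega⟩
  have huI : u ∉ Iset a b := fun h => ideal_not_upper a b h hub ⟨j, hj⟩
  have hvI : v ∉ Iset a b := fun h => ideal_not_lower a b h hvb ⟨l, hl⟩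
  have notboth : ∀ x, x ≠ 0 → x < b → b ∣ a * x → (∃ k, a * x = k * b + x) → False := by
    rintro x hx0 hxb hx1 ⟨k, hk⟩
    rw [hk] at hx1
    have h1 : b ∣ x := (Nat.dvd_add_right (Dvd.intro_left k rfl)).mp hx1
    have h2 := Nat.le_of_dvd (by omega) h1
    omega
  refine ⟨u, v, ⟨huS, hu1, ?_⟩, ⟨hvS, hv1, ?_⟩, huI, hvI, ?_, ?_⟩
  · intro x hx y hy hxy
    by_contra hc
    push Not at hc
    have hxI : x ∉ Iset a b := fun h => huI (by rw [← hxy]; exact ideal_add a b hb h hy)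
    have hyI : y ∉ Iset a b := fun h => huI (by
      rw [← hxy, add_comm]; exact ideal_add a b hb h hx)
    have notU : ∀ z, z ≠ 0 → z < u → ¬ b ∣ a * z := by
      intro z hz0 hzu hz
      rw [hu] at hzu
      exact Nat.find_min hexU hzu ⟨hz0, hz⟩
    rcases boundary a b hb hx hxI with h1 | ⟨k1, h1⟩
    · exact notU x hc.1 (by omega) h1
    · rcases boundary a b hb hy hyI with h2 | ⟨k2, h2⟩
      · exact notU y hc.2 (by omega) h2
      · exact notboth u hu1 hub ⟨j, hj⟩ ⟨k1 + k2, by rw [← hxy, mul_add, add_mul]; omega⟩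
  · intro x hx y hy hxy
    by_contra hc
    push Not at hc
    have hxI : x ∉ Iset a b := fun h => hvI (by rw [← hxy]; exact ideal_add a b hb h hy)
    have hyI : y ∉ Iset a b := fun h => hvI (by
      rw [← hxy, add_comm]; exact ideal_add a b hb h hx)
    have notV : ∀ z, z ≠ 0 → z < v → ¬ ∃ k, a * z = k * b + z := by
      intro z hz0 hzu hz
      rw [hv] at hzu
      exact Nat.find_min hexV hzu ⟨hz0, hz⟩
    rcases boundary a b hb hx hxI with h1 | h1
    · rcases boundary a b hb hy hyI with h2 | h2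
      · exact notboth v hv1 hvb (by rw [← hxy, mul_add]; exact dvd_add h1 h2) ⟨l, hl⟩
      · exact notV y hc.2 (by omega) h2
    · exact notV x hc.1 (by omega) h1
  · rintro rfl
    exact notboth u hu1 hub ⟨j, hj⟩ ⟨l, hl⟩
  · intro q hq hqn
    obtain ⟨u', v', hu', hv', huv', hbu', ⟨l', hl'⟩⟩ := split q hq hqn
    have h1 : u ≤ u' := by rw [hu]; exact Nat.find_min' hexU ⟨hu', hbu'⟩
    have h2 : v ≤ v' := by rw [hv]; exact Nat.find_min' hexV ⟨hv', l', hl'⟩
    have huvI : u + v ∈ Iset a b := by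
      refine ⟨j + l, ?_, ?_⟩
      · rw [mul_add, add_mul, hj, hl, mul_comm b j]; omega
      · rw [mul_add, add_mul, hj, hl, mul_comm b j]; omega
    have s1 : u' - u ∈ modS a b := by
      have h3 : b ∣ a * (u' - u) := by
        rw [Nat.mul_sub]; exact Nat.dvd_sub hbu' ⟨j, hj⟩
      change a * (u' - u) % b ≤ u' - u
      rw [Nat.mod_eq_zero_of_dvd h3]; omega
    have s2 : v' - v ∈ modS a b := by
      rw [mem_iff a b _ hb]
      have ha1 : 1 ≤ a := by
        by_contra hc
        have : a = 0 := by omega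
        subst this
        omega
      obtain ⟨c, rfl⟩ : ∃ c, a = c + 1 := ⟨a - 1, by omega⟩
      have e1 : c * v = l * b := by rw [add_mul, one_mul] at hl; omega
      have e2 : c * v' = l' * b := by rw [add_mul, one_mul] at hl'; omega
      have e3 : c * v ≤ c * v' := Nat.mul_le_mul_left c h2
      refine ⟨l' - l, ?_, ?_⟩
      · rw [Nat.sub_mul, Nat.mul_sub, add_mul, add_mul, one_mul, one_mul]; omega
      · rw [Nat.sub_mul, Nat.mul_sub, add_mul, add_mul, one_mul, one_mul]; omega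
    have := hq.2.2 (u + v) huvI ((u' - u) + (v' - v)) (add_mem a b hb s1 s2) (by omega)
    omega

lemma q_card (a b : ℕ) (hb : 0 < b) : (Qset a b).ncard + 1 ≤ (Irr a b).ncard := by
  have hfin := irr_finite a b hb
  by_cases hsub : Qset a b ⊆ Irr a b
  · obtain ⟨e, he, heI⟩ := exists_irr_not_ideal a b hb
    have h1 : insert e (Qset a b) ⊆ Irr a b := Set.insert_subset he hsub
    have h2 : e ∉ Qset a b := fun h => heI h.1
    have h3 := Set.ncard_le_ncard h1 hfin
    rwa [Set.ncard_insert_of_notMem h2 (hfin.subset hsub)] at h3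
  · obtain ⟨q₀, hq₀, hq₀'⟩ := Set.not_subset.mp hsub
    obtain ⟨u, v, hu, hv, huI, hvI, huv, hall⟩ := rays a b hb hq₀ hq₀'
    have hfin' : (Qset a b ∩ Irr a b).Finite := hfin.subset Set.inter_subset_right
    have h1 : Qset a b ⊆ insert (u + v) (Qset a b ∩ Irr a b) := by
      intro q hq
      by_cases h : q ∈ Irr a b
      · exact Or.inr ⟨hq, h⟩
      · exact Or.inl (hall q hq h)
    have h2 : (Qset a b).ncard ≤ (Qset a b ∩ Irr a b).ncard + 1 :=
      (Set.ncard_le_ncard h1 (hfin'.insert _)).trans (Set.ncard_insert_le _ _)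
    have hu' : u ∉ Qset a b ∩ Irr a b := fun h => huI h.1.1
    have hv' : v ∉ insert u (Qset a b ∩ Irr a b) := by
      rintro (h | h)
      · exact huv h.symm
      · exact hvI h.1.1
    have h3 : insert v (insert u (Qset a b ∩ Irr a b)) ⊆ Irr a b :=
      Set.insert_subset hv (Set.insert_subset hu Set.inter_subset_right)
    have h4 := Set.ncard_le_ncard h3 hfin
    rw [Set.ncard_insert_of_notMem hv' (hfin'.insert _),
      Set.ncard_insert_of_notMem hu' hfin'] at h4
    omega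

lemma compl_finite (a b : ℕ) (hb : 0 < b) : ((modS a b)ᶜ).Finite := by
  apply (Set.finite_lt_nat b).subset
  intro x hx
  by_contra hc
  exact hx (big_mem a b hb (by simpa using hc))

lemma gap_count (a b f : ℕ) (ha : 0 < a) (hb : 0 < b)
    (hmax : ∀ x, x ∉ modS a b → x ≤ f) :
    ((modS a b)ᶜ).ncard ≤ (Qset a b).ncard * ({s | s ∈ modS a b ∧ s ≤ f} : Set ℕ).ncard := by
  classical
  have hQfin : (Qset a b).Finite := (Set.finite_lt_nat b).subset (fun q hq => hq.2.1)
  have hLfin : ({s | s ∈ modS a b ∧ s ≤ f} : Set ℕ).Finite :=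
    (Set.finite_le_nat f).subset (fun s hs => hs.2)
  have hex : ∀ x : ℕ, ∃ p : ℕ × ℕ, x ∉ modS a b → p.1 ∈ Qset a b ∧ p.2 ∈ modS a b ∧
      p.2 ≤ f ∧ p.1 + p.2 = b - x ∧ x < b := by
    intro x
    by_cases hx : x ∈ modS a b
    · exact ⟨(0, 0), fun h => absurd hx h⟩
    · have hxb : x < b := by
        by_contra hc; exact hx (big_mem a b hb (by omega))
      have hx0 : x ≠ 0 := fun h => hx (h ▸ zero_mem a b)
      have h1 := (dual a b x ha hb hxb).mp hx
      obtain ⟨q, hq, s, hs, hqs⟩ := exists_q a b hb (b - x) h1 (by omega)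
      refine ⟨(q, s), fun _ => ⟨hq, hs, ?_, hqs, hxb⟩⟩
      have hqb := hq.2.1
      have h2 : b - q ∉ modS a b := by
        rw [dual a b (b - q) ha hb (by
          have : q ≠ 0 := by
            rintro rfl
            obtain ⟨k, h3, h4⟩ := hq.1
            simp at h4
          omega)]
        have : b - (b - q) = q := by omega
        rw [this]; exact hq.1
      have h3 := hmax _ h2
      simp only
      omega
  choose p hp using hex
  rw [← Set.ncard_prod]
  refine Set.ncard_le_ncard_of_injOn p ?_ ?_ (hQfin.prod hLfin)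
  · intro x hx
    obtain ⟨h1, h2, h3, h4, h5⟩ := hp x hx
    exact ⟨h1, h2, h3⟩
  · intro x hx y hy hxy
    obtain ⟨h1, h2, h3, h4, h5⟩ := hp x hx
    obtain ⟨k1, k2, k3, k4, k5⟩ := hp y hy
    rw [hxy] at h4
    omega

lemma split_count (a b f : ℕ) (hmax : ∀ x, x ∉ modS a b → x ≤ f) :
    ({s | s ∈ modS a b ∧ s ≤ f} : Set ℕ).ncard + ((modS a b)ᶜ).ncard = f + 1 := by
  have hLfin : ({s | s ∈ modS a b ∧ s ≤ f} : Set ℕ).Finite :=
    (Set.finite_le_nat f).subset (fun s hs => hs.2)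
  have hGfin : ((modS a b)ᶜ).Finite := (Set.finite_le_nat f).subset (fun s hs => hmax s hs)
  rw [← Set.ncard_union_eq _ hLfin hGfin]
  · have : ({s | s ∈ modS a b ∧ s ≤ f} : Set ℕ) ∪ (modS a b)ᶜ = (Finset.range (f + 1) : Set ℕ) := by
      ext x
      simp only [Set.mem_union, Set.mem_ofPred_eq, Set.mem_compl_iff, Finset.coe_range, Set.mem_Iio]
      constructor
      · rintro (h | h)
        · omega
        · have := hmax x h; omega
      · intro h
        by_cases hx : x ∈ modS a b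
        · exact Or.inl ⟨hx, by omega⟩
        · exact Or.inr hx
    rw [this, Set.ncard_coe_finset, Finset.card_range]
  · rw [Set.disjoint_left]
    intro x hx hx'
    exact hx' hx.1

lemma exists_frob (S : Set ℕ) (hfin : (Sᶜ).Finite) : ∃ F, IsFrob S F ∧
    ((Sᶜ = ∅ ∧ F = -1) ∨ ∃ f : ℕ, F = f ∧ f ∉ S ∧ ∀ x, x ∉ S → x ≤ f) := by
  by_cases hne : (Sᶜ).Nonempty
  · obtain ⟨f, hf, hmax⟩ := hfin.exists_maximal hne
    have hmax' : ∀ x, x ∉ S → x ≤ f := by
      intro x hx
      by_contra hc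
      have := hmax (show x ∈ Sᶜ from hx) (by omega)
      exact hc this
    refine ⟨f, ⟨?_, ?_⟩, Or.inr ⟨f, rfl, hf, hmax'⟩⟩
    · intro x hx hxf
      apply hf
      have : x = f := by exact_mod_cast hxf
      rw [← this]; exact hx
    · intro z hz
      by_contra hc
      have hz0 : 0 ≤ z := by omega
      obtain ⟨n, rfl⟩ := Int.eq_ofNat_of_zero_le hz0
      have : n ∉ S := fun h => hz n h rfl
      have := hmax' n this
      omega
  · rw [Set.not_nonempty_iff_eq_empty] at hne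
    refine ⟨-1, ⟨?_, ?_⟩, Or.inl ⟨hne, rfl⟩⟩
    · intro x _ hx; omega
    · intro z hz
      by_contra hc
      have hz0 : 0 ≤ z := by omega
      obtain ⟨n, rfl⟩ := Int.eq_ofNat_of_zero_le hz0
      have h1 : n ∈ S := by
        by_contra h
        have : n ∈ Sᶜ := h
        rw [hne] at this; exact this
      exact hz n h1 rfl

/-- Wilf's inequality holds for every modular numerical semigroup. -/
theorem main (a b : ℕ) (ha : 0 < a) (hb : 0 < b) :
    (0 ∈ modS a b ∧ (∀ x ∈ modS a b, ∀ y ∈ modS a b, x + y ∈ modS a b) ∧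
      ((modS a b)ᶜ).Finite) ∧
    (∃! G : Set ℕ, IsMinGen (modS a b) G) ∧ (∃! F : ℤ, IsFrob (modS a b) F) ∧
    ∀ (G : Set ℕ) (F : ℤ), IsMinGen (modS a b) G → IsFrob (modS a b) F →
      G.Finite ∧ (G.ncard : ℤ) * ((modS a b)ᶜ).ncard ≤ ((G.ncard : ℤ) - 1) * (F + 1) := by
  refine ⟨⟨zero_mem a b, fun x hx y hy => add_mem a b hb hx hy, compl_finite a b hb⟩,
    ⟨Irr a b, (isMinGen_iff a b hb _).mpr rfl, fun G hG => (isMinGen_iff a b hb G).mp hG⟩, ?_, ?_⟩
  · obtain ⟨F, hF, -⟩ := exists_frob (modS a b) (compl_finite a b hb)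
    exact ⟨F, hF, fun F' hF' => hF'.unique hF⟩
  · intro G F hG hF
    rw [isMinGen_iff a b hb] at hG
    subst hG
    refine ⟨irr_finite a b hb, ?_⟩
    obtain ⟨F', hF', hcase⟩ := exists_frob (modS a b) (compl_finite a b hb)
    obtain rfl : F = F' := hF.unique hF'
    rcases hcase with ⟨h1, rfl⟩ | ⟨f, rfl, -, hmax⟩
    · rw [h1]; simp
    · have h1 := gap_count a b f ha hb hmax
      have h2 := split_count a b f hmax
      have h3 := q_card a b hb
      set g := ((modS a b)ᶜ).ncard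
      set n := ({s | s ∈ modS a b ∧ s ≤ f} : Set ℕ).ncard
      set q := (Qset a b).ncard
      set e := (Irr a b).ncard
      have h4 : g + n ≤ (q + 1) * n := by rw [add_mul]; omega
      have h5 : g ≤ (e - 1) * n := h1.trans (Nat.mul_le_mul_right n (by omega))
      obtain ⟨c, hc⟩ : ∃ c, e = c + 1 := ⟨e - 1, by omega⟩
      rw [hc] at h5 ⊢
      rw [Nat.add_sub_cancel] at h5
      have h6 : (g : ℤ) ≤ c * n := by exact_mod_cast h5
      have h7 : (n : ℤ) + g = f + 1 := by exact_mod_cast h2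
      rw [← h7]
      push_cast
      nlinarith

end Pool.Agent.Lib.MP_811154_nt
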